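import Pool.Agent.H.MP_e61cf5_co.A

set_option autoImplicit false
open Finset
open scoped Classical

namespace Pool.Agent.H.MP_e61cf5_co

variable {V : Type} [Fintype V]

noncomputable def ff (h : V → V → Bool) (x : V → ℝ) : ℝ :=
  ∑ i, ∑ j, if h i j then x i * x j else 0

noncomputable def nn (x : V → ℝ) : ℝ := ∑ i, x i * x i

structure Sp (h : V → V → Bool) : Prop where
  symm : ∀ i j, h i j = h j i
  irr : ∀ i, h i i = false
  sp : ∀ x y : V → ℝ, ∑ i, x i = 0 → ∑ i, y i = 0 → 0 < nn x → 0 < nn y →
    ff h x * nn y - ff h y * nn x < 2 * nn x * nn y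

noncomputable def lift (φ : ℕ → V) (k : ℕ) (x : ℕ → ℝ) (v : V) : ℝ :=
  ∑ j ∈ range k, if φ j = v then x j else 0

theorem lift_sum (φ : ℕ → V) (k : ℕ) (x : ℕ → ℝ) (g : V → ℝ) :
    ∑ v, lift φ k x v * g v = ∑ j ∈ range k, x j * g (φ j) := by
  simp only [lift, sum_mul]
  rw [sum_comm]
  simp

theorem lift_ff (h : V → V → Bool) (φ : ℕ → V) (k : ℕ) (x : ℕ → ℝ) : ff h (lift φ k x) =
    ∑ i ∈ range k, ∑ j ∈ range k, if h (φ i) (φ j) then x i * x j else 0 := by
  have e : ∀ (b : Bool) (s t : ℝ), (if b then s * t else 0) = s * (t * if b then 1 else 0) := by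
    intro b s t; cases b <;> simp
  simp only [ff, e, ← mul_sum, lift_sum]

theorem lift_nn {φ : ℕ → V} {k : ℕ} (hφ : ∀ i < k, ∀ j < k, φ i = φ j → i = j) (x : ℕ → ℝ) :
    nn (lift φ k x) = ∑ i ∈ range k, x i * x i := by
  rw [nn, lift_sum]
  refine sum_congr rfl fun i hi => ?_
  rw [lift, sum_eq_single i (fun j hj hji => if_neg fun e =>
    hji (hφ j (mem_range.1 hj) i (mem_range.1 hi) e)) (fun h => absurd hi h), if_pos rfl]

theorem Sp.nov {h : V → V → Bool} (H : Sp h) {φ : ℕ → V} {k : ℕ}
    (hφ : ∀ i < k, ∀ j < k, φ i = φ j → i = j) {g : ℕ → ℕ → Bool}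
    (hg : ∀ i < k, ∀ j < k, g i j = h (φ i) (φ j)) (p : ℕ) : viol g k p = false := by
  by_contra hc
  simp only [viol, Bool.not_eq_false, Bool.and_eq_true, decide_eq_true_eq, Fq, Nq, sm_eq] at hc
  obtain ⟨⟨⟨⟨h1, h2⟩, h3⟩, h4⟩, h5⟩ := hc
  have a : ∀ s, ∑ i ∈ range k, vx p s i = 0 → ∑ v, lift φ k (fun i => vx p s i) v = 0 := by
    intro s hs
    have := lift_sum φ k (fun i => vx p s i) fun _ => 1
    simp only [mul_one] at this
    rw [this]; exact_mod_cast hs
  have b : ∀ s, ff h (lift φ k fun i => vx p s i) = ((∑ i ∈ range k, ∑ j ∈ range k,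
      if g i j then vx p s i * vx p s j else 0 : ℤ) : ℝ) := by
    intro s
    rw [lift_ff]
    push_cast
    exact sum_congr rfl fun i hi => sum_congr rfl fun j hj => by
      rw [hg i (mem_range.1 hi) j (mem_range.1 hj)]
  have := H.sp _ _ (a 0 h1) (a 6 h2) (by rw [lift_nn hφ]; exact_mod_cast h3)
    (by rw [lift_nn hφ]; exact_mod_cast h4)
  rw [lift_nn hφ, lift_nn hφ, b, b] at this
  exact absurd h5 (not_le.2 (by exact_mod_cast this))

theorem inj_of_nodup {l : List V} (hl : l.Nodup) (v : V) :
    ∀ i < l.length, ∀ j < l.length, l.getD i v = l.getD j v → i = j := by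
  intro i hi j hj e
  rw [List.getD_eq_getElem _ _ hi, List.getD_eq_getElem _ _ hj] at e
  exact (hl.getElem_inj_iff).1 e

theorem Sp.alt {h : V → V → Bool} (H : Sp h) {a u v w : V} (hn : [a, u, v, w].Nodup)
    (h1 : h a u = true) (h2 : h v w = true) (h3 : h a v = false) (h4 : h u w = false) : False := by
  obtain ⟨p, -, hp⟩ := List.any_eq_true.1 (d4a (h u v) (h a w))
  rw [H.nov (k := 4) (inj_of_nodup hn a)] at hp
  · exact absurd hp (by simp)
  intro i hi j hj
  interval_cases i <;> interval_cases j <;>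
    simp [MP_e61cf5_co.mk, H.irr, h1, h2, h3, h4, H.symm u a, H.symm v a, H.symm w a, H.symm v u, H.symm w u,
      H.symm w v]

theorem Sp.six {h : V → V → Bool} (H : Sp h) {a b c d e v : V} (hn : [a, b, c, d, e, v].Nodup)
    (hv : ∀ w, h v w = false) (h2 : 2 ≤ [h a b, h a c, h b c, h a d, h b d, h c d, h a e, h b e,
      h c e, h d e].count true) : h a b = true ∧ h a c = true ∧ h b c = true ∧ h d e = true := by
  rcases d6 _ _ _ _ _ _ _ _ _ _ h2 with hp | hp
  · rw [H.nov (k := 6) (inj_of_nodup hn a)] at hp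
    · exact absurd hp (by simp)
    intro i hi j hj
    interval_cases i <;> interval_cases j <;>
      simp [MP_e61cf5_co.mk, H.irr, hv, H.symm b a, H.symm c a, H.symm d a, H.symm e a, H.symm c b, H.symm d b,
        H.symm e b, H.symm d c, H.symm e c, H.symm e d, H.symm _ v]
  · have := List.count_eq_length.1 hp
    simp only [List.mem_cons, forall_eq_or_imp] at this
    tauto

noncomputable def co (h : V → V → Bool) (i j : V) : Bool := !h i j && decide (i ≠ j)

theorem Sp.ff_co {h : V → V → Bool} (H : Sp h) {x : V → ℝ} (hx : ∑ i, x i = 0) :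
    ff (co h) x = -nn x - ff h x := by
  have : ∀ i j, (if co h i j then x i * x j else 0) = x i * x j -
      (if i = j then x i * x j else 0) - if h i j then x i * x j else 0 := by
    intro i j
    by_cases e : i = j
    · simp [co, e, H.irr]
    · cases h' : h i j <;> simp [co, e, h']
  simp only [ff, this, sum_sub_distrib, ← mul_sum, hx, nn]
  simp

theorem Sp.co {h : V → V → Bool} (H : Sp h) : Sp (co h) := by
  refine ⟨fun i j => by simp [MP_e61cf5_co.co, H.symm i j, eq_comm],
    fun i => by simp [MP_e61cf5_co.co], fun x y hx hy h1 h2 => ?_⟩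
  rw [H.ff_co hx, H.ff_co hy]
  linarith [H.sp y x hy hx h2 h1]

noncomputable def mm (h : V → V → Bool) : ℕ := #{p : V × V | h p.1 p.2}

theorem Sp.mm_co {h : V → V → Bool} (H : Sp h) :
    mm (MP_e61cf5_co.co h) + mm h + Fintype.card V = Fintype.card V * Fintype.card V := by
  have e : Fintype.card V = #{p : V × V | p.1 = p.2} := by
    rw [← card_univ, ← diag_card]; congr; ext; simp [mem_diag]
  rw [← Fintype.card_prod, e, mm, mm, ← card_univ, card_filter, card_filter, card_filter,
    ← sum_add_distrib, ← sum_add_distrib, card_eq_sum_ones]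
  refine sum_congr rfl fun p _ => ?_
  by_cases e : p.1 = p.2
  · simp [MP_e61cf5_co.co, e, H.irr]
  · cases h' : h p.1 p.2 <;> simp [MP_e61cf5_co.co, e, h']

theorem Sp.thr {h : V → V → Bool} (H : Sp h) [Nonempty V] :
    (∃ v, ∀ w, h v w = false) ∨ ∃ v, ∀ w, MP_e61cf5_co.co h v w = false := by
  obtain ⟨a, -, ha⟩ := exists_max_image univ (fun v => #{w | h v w}) univ_nonempty
  by_contra! hc
  obtain ⟨v, hv⟩ := hc.2 a
  obtain ⟨w, hw⟩ := hc.1 v
  simp only [MP_e61cf5_co.co, ne_eq, Bool.not_eq_false, Bool.and_eq_true, Bool.not_eq_true',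
    decide_eq_true_eq] at hv hw
  have ne : ∀ {x y}, h x y = true → x ≠ y := fun {x y} e e' => by simp [e', H.irr] at e
  have haw : a ≠ w := by rintro rfl; rw [H.symm, hw] at hv; simp at hv
  have h1 : insert v (({u | h a u} : Finset V).image fun u => if u = w then a else u) ⊆
      ({u | h w u} : Finset V) := by
    intro z hz
    rcases mem_insert.1 hz with rfl | hz
    · simpa [H.symm w] using hw
    obtain ⟨u, hu, rfl⟩ := mem_image.1 hz
    have hu : h a u = true := by simpa using hu
    split_ifs with e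
    · simpa [H.symm w, e] using hu
    · by_contra h3
      have huv : u ≠ v := by rintro rfl; rw [hu] at hv; simp at hv
      exact H.alt (by simp [ne hu, hv.2, haw, huv, e, ne hw]) hu hw hv.1
        (by simpa [H.symm w] using h3)
  have h2 := card_le_card h1
  rw [card_insert_of_notMem, card_image_of_injOn] at h2
  · have := ha w (mem_univ _); omega
  · intro x hx y hy e
    have := ne (by simpa using hx : h a x = true)
    have := ne (by simpa using hy : h a y = true)
    dsimp only at e
    split_ifs at e <;> simp_all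
  · intro h3
    obtain ⟨u, hu, e⟩ := mem_image.1 h3
    have hu : h a u = true := by simpa using hu
    split_ifs at e
    · exact hv.2 e
    · rw [← e, hu] at hv; simp at hv

theorem fresh (h6 : 6 ≤ Fintype.card V) (l : List V) (hl : l.length ≤ 5) : ∃ x, x ∉ l := by
  by_contra! hc
  have := (card_le_card (fun x _ => List.mem_toFinset.2 (hc x) : univ ⊆ l.toFinset)).trans
    l.toFinset_card_le
  rw [card_univ] at this
  omega

theorem Sp.big0 {h : V → V → Bool} (H : Sp h) (h6 : 6 ≤ Fintype.card V) {v : V}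
    (hv : ∀ w, h v w = false) (hd : Fintype.card V ∣ mm h) : ∀ i j, h i j = false := by
  by_contra! hc
  obtain ⟨a, b, hab⟩ := hc
  have hab : h a b = true := by simpa using hab
  have ne : ∀ {x y}, h x y = true → x ≠ y := fun {x y} e e' => by simp [e', H.irr] at e
  have nv : ∀ {x y}, h x y = true → x ≠ v := fun {x y} e e' => by simp [e', hv] at e
  have nv' : ∀ {x y}, h x y = true → y ≠ v := fun {x y} e => nv (H.symm x y ▸ e)
  have h1 : ∃ c d, h c d = true ∧ c ≠ a ∧ c ≠ b := by
    by_contra! hc
    have : ({p : V × V | h p.1 p.2} : Finset _) ⊆ {(a, b), (b, a)} := by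
      rintro ⟨c, d⟩ hp
      have hp : h c d = true := by simpa using hp
      have := hc c d hp
      have := hc d c (H.symm c d ▸ hp)
      have := ne hp
      simp only [mem_insert, mem_singleton, Prod.mk.injEq]
      grind
    have h2 : mm h ≤ 2 := (card_le_card this).trans card_le_two
    have h3 : 0 < mm h := card_pos.2 ⟨(a, b), by simpa using hab⟩
    have := Nat.le_of_dvd h3 hd
    omega
  obtain ⟨c, d, hcd, hca, hcb⟩ := h1
  have tri : h a c = true ∧ h b c = true := by
    by_cases hda : d = a ∨ d = b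
    · obtain ⟨x, hx⟩ := fresh h6 [a, b, c, v] (by simp)
      obtain ⟨y, hy⟩ := fresh h6 [a, b, c, x, v] (by simp)
      have := H.six (a := a) (b := b) (c := c) (d := x) (e := y) (by
        have := ne hab; have := nv hab; have := nv' hab; have := nv hcd
        simp only [List.mem_cons, not_or] at hx hy
        simp only [List.nodup_cons, List.mem_cons]
        grind) hv (by
        rw [H.symm] at hcd
        rcases hda with rfl | rfl <;> simp [hab, hcd, List.count_cons] <;> omega)
      tauto
    · obtain ⟨y, hy⟩ := fresh h6 [a, b, c, d, v] (by simp)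
      have := H.six (a := a) (b := b) (c := c) (d := d) (e := y) (by
        have := ne hab; have := nv hab; have := nv' hab; have := nv hcd; have := nv' hcd
        have := ne hcd
        simp only [List.mem_cons, not_or] at hy
        simp only [List.nodup_cons, List.mem_cons]
        grind) hv (by simp [hab, hcd, List.count_cons]; omega)
      tauto
  have nb : ∀ x y z, h x y = true → h x z = true → h y z = true → ∀ s, s ≠ v → s ≠ x →
      h x s = true := by
    intro x y z h1 h2 h3 s hs hsx
    by_cases e : s = y ∨ s = z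
    · rcases e with rfl | rfl <;> assumption
    obtain ⟨t, ht⟩ := fresh h6 [x, s, y, z, v] (by simp)
    exact (H.six (a := x) (b := s) (c := y) (d := z) (e := t) (by
      have := ne h1; have := ne h2; have := ne h3; have := nv h1; have := nv' h1; have := nv' h2
      simp only [List.mem_cons, not_or] at ht
      simp only [List.nodup_cons, List.mem_cons]
      grind) hv (by simp [h1, h2, List.count_cons]; omega)).1
  have na := nb a b c hab tri.1 tri.2
  have nb' := nb b a c (H.symm a b ▸ hab) tri.2 tri.1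
  have all : ∀ s t, s ≠ v → t ≠ v → s ≠ t → h s t = true := by
    intro s t hs ht hst
    by_cases e : s = a ∨ s = b
    · rcases e with rfl | rfl
      · exact na t ht hst.symm
      · exact nb' t ht hst.symm
    push Not at e
    exact nb s a b (H.symm a s ▸ na s hs e.1) (H.symm b s ▸ nb' s hs e.2) hab t ht hst.symm
  have h2 : mm h = (Fintype.card V - 1) * (Fintype.card V - 1) - (Fintype.card V - 1) := by
    rw [← card_univ, ← card_erase_of_mem (mem_univ v), ← offDiag_card, mm]
    congr 1
    ext ⟨s, t⟩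
    simp only [mem_filter, mem_univ, true_and, mem_offDiag, mem_erase, and_true]
    exact ⟨fun e => ⟨nv e, nv' e, ne e⟩, fun e => all s t e.1 e.2.1 e.2.2⟩
  obtain ⟨n, hn⟩ : ∃ n, Fintype.card V = n + 3 := ⟨Fintype.card V - 3, by omega⟩
  rw [h2, hn, show (n + 3 - 1) * (n + 3 - 1) - (n + 3 - 1) = (n + 3) * n + 2 by
    rw [show n + 3 - 1 = n + 2 by omega]; apply Nat.sub_eq_of_eq_add; ring] at hd
  have := Nat.le_of_dvd (by norm_num) ((Nat.dvd_add_right (Dvd.intro _ rfl)).1 hd)
  omega

theorem Sp.big {h : V → V → Bool} (H : Sp h) (h6 : 6 ≤ Fintype.card V)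
    (hd : Fintype.card V ∣ mm h) :
    (∀ i j, h i j = false) ∨ ∀ i j, MP_e61cf5_co.co h i j = false := by
  have : Nonempty V := Fintype.card_pos_iff.1 (by omega)
  refine H.thr.imp (fun ⟨v, hv⟩ => H.big0 h6 hv hd) fun ⟨v, hv⟩ => H.co.big0 h6 hv ?_
  have h1 : Fintype.card V ∣ mm (MP_e61cf5_co.co h) + mm h + Fintype.card V :=
    H.mm_co ▸ Dvd.intro _ rfl
  exact (Nat.dvd_add_left hd).1 ((Nat.dvd_add_left dvd_rfl).1 h1)

end Pool.Agent.H.MP_e61cf5_co
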