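import Pool.Agent.H.MP_e61cf5_co.B

set_option autoImplicit false
open Finset Matrix
open scoped Classical

namespace Pool.Agent.H.MP_e61cf5_co

theorem mm_sum {n : ℕ} (h : Fin n → Fin n → Bool) :
    mm h = ∑ i, ∑ j, if h i j then 1 else 0 := by
  rw [mm, card_filter, Fintype.sum_prod_type]

theorem Sp.five {h : Fin 5 → Fin 5 → Bool} (H : Sp h) (hd : 5 ∣ mm h) :
    (∀ i j, h i j = false) ∨ ∀ i j, MP_e61cf5_co.co h i j = false := by
  have s := H.symm
  have e : mm h = 2 * [h 0 1, h 0 2, h 1 2, h 0 3, h 1 3, h 2 3, h 0 4, h 1 4, h 2 4,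
      h 3 4].count true := by
    simp only [mm_sum, Fin.sum_univ_five, H.irr, s 1 0, s 2 0, s 3 0, s 4 0, s 2 1, s 3 1, s 4 1,
      s 3 2, s 4 2, s 4 3, List.count_cons, List.count_nil, beq_iff_eq]
    simp only [Bool.false_eq_true, if_false]
    ring
  have l := List.count_le_length (a := true) (l := [h 0 1, h 0 2, h 1 2, h 0 3, h 1 3, h 2 3,
    h 0 4, h 1 4, h 2 4, h 3 4])
  simp only [List.length] at l
  have : _ = 0 ∨ _ = 5 ∨ _ = 10 := (by omega : ∀ c, c ≤ 10 → 5 ∣ 2 * c → c = 0 ∨ c = 5 ∨ c = 10)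
    _ l (e ▸ hd)
  rcases this with c | c | c
  · have := List.count_eq_zero.1 c
    simp only [List.mem_cons, List.not_mem_nil, or_false, not_or, Bool.true_eq, Bool.not_eq_true]
      at this
    left; intro i j
    fin_cases i <;> fin_cases j <;> simp [H.irr, s 1 0, s 2 0, s 3 0, s 4 0, s 2 1, s 3 1, s 4 1,
      s 3 2, s 4 2, s 4 3, this]
  · have hp := d5 _ _ _ _ _ _ _ _ _ _ c
    rw [H.nov (k := 5) (inj_of_nodup (l := [0, 1, 2, 3, 4]) (by decide) 0)] at hp
    · exact absurd hp (by simp)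
    intro i hi j hj
    interval_cases i <;> interval_cases j <;>
      simp [MP_e61cf5_co.mk, H.irr, s 1 0, s 2 0, s 3 0, s 4 0, s 2 1, s 3 1, s 4 1, s 3 2, s 4 2, s 4 3]
  · have := List.count_eq_length.1 c
    simp only [List.mem_cons, List.not_mem_nil, or_false, forall_eq_or_imp, forall_eq,
      Bool.true_eq] at this
    right; intro i j
    fin_cases i <;> fin_cases j <;> simp [MP_e61cf5_co.co, s 1 0, s 2 0, s 3 0, s 4 0, s 2 1,
      s 3 1, s 4 1, s 3 2, s 4 2, s 4 3, this]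

theorem Sp.three {h : Fin 3 → Fin 3 → Bool} (H : Sp h) (hd : 3 ∣ mm h) :
    (∀ i j, h i j = false) ∨ ∀ i j, MP_e61cf5_co.co h i j = false := by
  have s := H.symm
  simp only [mm_sum, Fin.sum_univ_three, H.irr, s 1 0, s 2 0, s 2 1] at hd
  simp only [Fin.forall_fin_succ, MP_e61cf5_co.co]
  cases a : h 0 1 <;> cases b : h 0 2 <;> cases c : h 1 2 <;>
    simp [H.irr, s 1 0, s 2 0, s 2 1, a, b, c] at hd ⊢

theorem Sp.two {h : Fin 2 → Fin 2 → Bool} (H : Sp h) :
    (∀ i j, h i j = false) ∨ ∀ i j, MP_e61cf5_co.co h i j = false := by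
  simp only [Fin.forall_fin_succ, MP_e61cf5_co.co]
  cases a : h 0 1 <;> simp [H.irr, H.symm 1 0, a]

noncomputable def rho : ℝ := (1 + √3) / 2

theorem rho_sq : rho ^ 2 = rho + 1 / 2 := by
  have := Real.sq_sqrt (show (0 : ℝ) ≤ 3 by norm_num)
  unfold rho; nlinarith

theorem rho_gt : 1 < rho := by
  have : (1 : ℝ) < √3 := Real.lt_sqrt_of_sq_lt (by norm_num)
  unfold rho; linarith

def Ext {V : Type} [Fintype V] (h : V → V → Bool) : Prop :=
  (∀ x : V → ℝ, ∑ i, x i = 0 → -ff h x ≤ rho * nn x) ∧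
    ∃ x : V → ℝ, ∑ i, x i = 0 ∧ 0 < nn x ∧ -ff h x = rho * nn x

theorem sum4 {a b c d : Fin 4} (hn : [a, b, c, d].Nodup) (f : Fin 4 → ℝ) :
    ∑ i, f i = f a + f b + f c + f d := by
  have : (univ : Finset (Fin 4)) = [a, b, c, d].toFinset :=
    (eq_univ_of_card _ (by rw [List.toFinset_card_of_nodup hn]; rfl)).symm
  rw [this, List.sum_toFinset _ hn]
  simp [add_assoc]

theorem vec4 {a b c d : Fin 4} (hn : [a, b, c, d].Nodup) (p q r s : ℝ) :
    ∃ x : Fin 4 → ℝ, x a = p ∧ x b = q ∧ x c = r ∧ x d = s := by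
  simp only [List.nodup_cons, List.mem_cons, List.not_mem_nil, or_false, not_or] at hn
  refine ⟨fun i => if i = a then p else if i = b then q else if i = c then r else s, ?_⟩
  grind

theorem Sp.four {h : Fin 4 → Fin 4 → Bool} (H : Sp h) (hd : 4 ∣ mm h) :
    ((∀ i j, h i j = false) ∨ ∀ i j, MP_e61cf5_co.co h i j = false) ∨ Ext h := by
  have s := H.symm
  have e : mm h = 2 * [h 0 1, h 0 2, h 1 2, h 0 3, h 1 3, h 2 3].count true := by
    simp only [mm_sum, Fin.sum_univ_four, H.irr, s 1 0, s 2 0, s 3 0, s 2 1, s 3 1,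
      s 3 2, List.count_cons, List.count_nil, beq_iff_eq]
    simp only [Bool.false_eq_true, if_false]
    ring
  have l := List.count_le_length (a := true) (l := [h 0 1, h 0 2, h 1 2, h 0 3, h 1 3, h 2 3])
  simp only [List.length] at l
  have hg : ∀ i < 4, ∀ j < 4, MP_e61cf5_co.mk [h 0 1, h 0 2, h 1 2, h 0 3, h 1 3, h 2 3] i j =
      h ([0, 1, 2, 3].getD i 0) ([0, 1, 2, 3].getD j 0) := by
    intro i hi j hj
    interval_cases i <;> interval_cases j <;>
      simp [MP_e61cf5_co.mk, H.irr, s 1 0, s 2 0, s 3 0, s 2 1, s 3 1, s 3 2]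
  have : _ = 0 ∨ (_ = 2 ∨ _ = 4) ∨ _ = 6 :=
    (by omega : ∀ c, c ≤ 6 → 4 ∣ 2 * c → c = 0 ∨ (c = 2 ∨ c = 4) ∨ c = 6) _ l (e ▸ hd)
  rcases this with c | c | c
  · have := List.count_eq_zero.1 c
    simp only [List.mem_cons, List.not_mem_nil, or_false, not_or, Bool.true_eq, Bool.not_eq_true]
      at this
    left; left; intro i j
    fin_cases i <;> fin_cases j <;> simp [H.irr, s 1 0, s 2 0, s 3 0, s 2 1, s 3 1, s 3 2, this]
  · rcases d4 _ _ _ _ _ _ c with hp | ⟨t, i, hi, j, hj, k, hk, m, hm, hn, h1⟩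
    · obtain ⟨p, -, hp⟩ := List.any_eq_true.1 hp
      rw [H.nov (k := 4) (inj_of_nodup (l := [0, 1, 2, 3]) (by decide) 0) hg] at hp
      exact absurd hp (by simp)
    right
    rw [hg i hi j hj, hg i hi k hk, hg i hi m hm, hg j hj k hk, hg j hj m hm, hg k hk m hm] at h1
    have hn' : [([0, 1, 2, 3] : List (Fin 4)).getD i 0, [0, 1, 2, 3].getD j 0,
        [0, 1, 2, 3].getD k 0, [0, 1, 2, 3].getD m 0].Nodup := by
      have := inj_of_nodup (l := ([0, 1, 2, 3] : List (Fin 4))) (by decide) 0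
      simp only [List.nodup_cons, List.mem_cons, List.not_mem_nil, or_false, not_or] at hn ⊢
      refine ⟨⟨fun e => ?_, fun e => ?_, fun e => ?_⟩, ⟨fun e => ?_, fun e => ?_⟩, fun e => ?_,
        by simp⟩ <;> have := this _ (by assumption) _ (by assumption) e <;> omega
    generalize ([0, 1, 2, 3] : List (Fin 4)).getD i 0 = a at h1 hn'
    generalize ([0, 1, 2, 3] : List (Fin 4)).getD j 0 = b at h1 hn'
    generalize ([0, 1, 2, 3] : List (Fin 4)).getD k 0 = c at h1 hn'
    generalize ([0, 1, 2, 3] : List (Fin 4)).getD m 0 = d at h1 hn'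
    have r1 := rho_sq
    have r2 := rho_gt
    unfold Ext ff nn
    simp only [sum4 hn', H.irr, s b a, s c a, s d a, s c b, s d b, s d c, h1]
    cases t
    · refine ⟨fun x hx => ?_, ?_⟩
      · simp only [Bool.false_eq_true, if_false, Bool.not_false, if_true]
        rw [show x d = -x a - x b - x c by linarith]
        nlinarith [mul_nonneg (sub_pos.2 r2).le (sq_nonneg (x b - x c)),
          mul_nonneg (sub_pos.2 r2).le (sq_nonneg (2 * x a + (1 - 2 * rho) * (x b + x c)))]
      · obtain ⟨x, h2, h3, h4, h5⟩ := vec4 hn' (2 * rho - 1) 1 1 (-2 * rho - 1)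
        refine ⟨x, by linarith, ?_, ?_⟩ <;>
          simp only [h2, h3, h4, h5, Bool.false_eq_true, if_false, Bool.not_false, if_true]
        · nlinarith
        · nlinarith
    · refine ⟨fun x hx => ?_, ?_⟩
      · simp only [Bool.false_eq_true, if_false, Bool.not_true, if_true]
        rw [show x d = -x a - x b - x c by linarith]
        nlinarith [mul_nonneg (by linarith : 0 ≤ rho) (sq_nonneg (x b - x c)),
          mul_nonneg (by linarith : 0 ≤ rho)
            (sq_nonneg (2 * x a + (2 * rho - 1) * (x b + x c)))]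
      · obtain ⟨x, h2, h3, h4, h5⟩ := vec4 hn' (1 - 2 * rho) 1 1 (2 * rho - 3)
        refine ⟨x, by linarith, ?_, ?_⟩ <;>
          simp only [h2, h3, h4, h5, Bool.false_eq_true, if_false, Bool.not_true, if_true]
        · nlinarith
        · nlinarith
  · have := List.count_eq_length.1 c
    simp only [List.mem_cons, List.not_mem_nil, or_false, forall_eq_or_imp, forall_eq,
      Bool.true_eq] at this
    left; right; intro i j
    fin_cases i <;> fin_cases j <;> simp [MP_e61cf5_co.co, s 1 0, s 2 0, s 3 0, s 2 1,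
      s 3 1, s 3 2, this]

theorem Sp.cls {n : ℕ} (hn : 2 ≤ n) {h : Fin n → Fin n → Bool} (H : Sp h) (hd : n ∣ mm h) :
    ((∀ i j, h i j = false) ∨ ∀ i j, MP_e61cf5_co.co h i j = false) ∨ Ext h := by
  rcases le_or_gt 6 n with h6 | h6
  · exact Or.inl (H.big (by simpa using h6) (by simpa using hd))
  interval_cases n
  · exact Or.inl H.two
  · exact Or.inl (H.three hd)
  · exact H.four hd
  · exact Or.inl (H.five hd)

theorem not_int (t : ℤ) : ¬ IsIntegral ℤ ((t + rho : ℝ) : ℂ) := fun h => by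
  have h1 : IsIntegral ℤ (rho : ℂ) := by
    simpa using h.sub (isIntegral_algebraMap (R := ℤ) (A := ℂ) (x := t))
  have h2 : (rho : ℂ) ^ 2 - rho = algebraMap ℚ ℂ (1 / 2) := by
    have : (rho : ℂ) ^ 2 = rho + 1 / 2 := by
      have := congrArg Complex.ofReal rho_sq
      push_cast at this
      exact this
    rw [this]; simp
  have h3 := (h1.pow 2).sub h1
  rw [h2, isIntegral_algebraMap_iff (algebraMap ℚ ℂ).injective] at h3
  obtain ⟨z, hz⟩ := IsIntegrallyClosed.isIntegral_iff.1 h3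
  have h4 : (2 * z : ℚ) = 1 := by rw [show (z : ℚ) = 1 / 2 from hz]; norm_num
  have : 2 * z = 1 := by exact_mod_cast h4
  omega

end Pool.Agent.H.MP_e61cf5_co
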