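import Pool.Agent.H.MP_e61cf5_co.C

set_option autoImplicit false
open Finset Matrix
open scoped Classical ComplexConjugate

namespace Pool.Agent.H.MP_e61cf5_co

variable {n : ℕ}

noncomputable def ad (E : Fin n → Fin n → Prop) (i j : Fin n) : ℕ := if E i j then 1 else 0

noncomputable def dg (E : Fin n → Fin n → Prop) (i : Fin n) : ℕ := #{j | E i j}

noncomputable def lap (E : Fin n → Fin n → Prop) (R : Type) [Ring R] : Matrix (Fin n) (Fin n) R :=
  diagonal (fun i => (#{j | E i j} : R)) - of fun i j => if E i j then 1 else 0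

variable (E : Fin n → Fin n → Prop)

theorem quad (x : Fin n → ℝ) : x ⬝ᵥ (lap E ℝ *ᵥ x) =
    ∑ i, dg E i * (x i * x i) - ∑ i, ∑ j, ad E i j * (x i * x j) := by
  rw [lap, sub_mulVec, dotProduct_sub]
  congr 1
  · simp only [dotProduct, mulVec_diagonal, dg]
    exact sum_congr rfl fun i _ => by ring
  · simp only [dotProduct, mulVec, of_apply, mul_sum, ad]
    exact sum_congr rfl fun i _ => sum_congr rfl fun j _ => by split_ifs <;> simp

theorem re_quad (x : Fin n → ℂ) : (star x ⬝ᵥ (lap E ℂ *ᵥ x)).re =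
    (fun i => (x i).re) ⬝ᵥ (lap E ℝ *ᵥ fun i => (x i).re) +
      (fun i => (x i).im) ⬝ᵥ (lap E ℝ *ᵥ fun i => (x i).im) := by
  have : ∀ i j, lap E ℂ i j = (lap E ℝ i j : ℝ) := fun i j => by
    simp only [lap, Matrix.sub_apply, diagonal_apply, of_apply]
    split_ifs <;> simp
  simp only [dotProduct, mulVec, this, mul_sum, Complex.re_sum, ← sum_add_distrib]
  refine sum_congr rfl fun i _ => sum_congr rfl fun j _ => ?_
  simp

theorem ofReal_quad (x : Fin n → ℝ) : (star (fun i => (x i : ℂ)) ⬝ᵥ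
    (lap E ℂ *ᵥ fun i => (x i : ℂ))).re = x ⬝ᵥ (lap E ℝ *ᵥ x) := by
  rw [re_quad]
  simp [dotProduct]

theorem scale {x : Fin n → ℝ} (hx : ∑ i, x i = 0) (hp : 0 < nn x) :
    ∃ y : Fin n → ℝ, ∑ i, y i = 0 ∧ ∑ i, y i ^ 2 = 1 ∧
      y ⬝ᵥ (lap E ℝ *ᵥ y) * nn x = x ⬝ᵥ (lap E ℝ *ᵥ x) := by
  have h := Real.mul_self_sqrt hp.le
  have h0 := (Real.sqrt_pos.2 hp).ne'
  refine ⟨(√(nn x))⁻¹ • x, ?_, ?_, ?_⟩
  · simp [← mul_sum, hx]
  · simp only [Pi.smul_apply, smul_eq_mul, mul_pow, ← mul_sum]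
    rw [show ∑ i, x i ^ 2 = nn x by simp [nn, sq], sq]
    field_simp
    rw [sq, h]
  · rw [mulVec_smul, dotProduct_smul, smul_dotProduct, smul_eq_mul, smul_eq_mul]
    field_simp
    rw [sq, h, mul_comm]

theorem nn_zero {x : Fin n → ℝ} (h : ¬ 0 < nn x) : x = 0 := by
  have h0 : ∀ i ∈ univ, 0 ≤ x i * x i := fun i _ => mul_self_nonneg _
  have := (sum_eq_zero_iff_of_nonneg h0).1 (le_antisymm (not_lt.1 h) (sum_nonneg h0))
  exact funext fun i => mul_self_eq_zero.1 (this i (mem_univ _))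

theorem struc (hn : 2 ≤ n) (hE : ∀ i, ¬ E i i) {α β : ℝ} (h1 : β - α < 1)
    (hb : ∀ x : Fin n → ℝ, ∑ i, x i = 0 → α * nn x ≤ x ⬝ᵥ (lap E ℝ *ᵥ x) ∧
      x ⬝ᵥ (lap E ℝ *ᵥ x) ≤ β * nn x) :
    ∃ (t : ℤ) (h : Fin n → Fin n → Bool), Sp h ∧ n ∣ mm h ∧ ∀ x : Fin n → ℝ, ∑ i, x i = 0 →
      2 * (x ⬝ᵥ (lap E ℝ *ᵥ x)) = t * nn x - ff h x := by
  let q : Fin n × Fin n → ℕ := fun p => dg E p.1 + dg E p.2 + ad E p.1 p.2 + ad E p.2 p.1
  have hq : ∀ i j, i ≠ j → 2 * α ≤ q (i, j) ∧ q (i, j) ≤ 2 * β := by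
    intro i j hij
    have a : ∀ g : Fin n → ℝ, ∑ k, (Pi.single i 1 - Pi.single j 1 : Fin n → ℝ) k * g k =
        g i - g j := fun g => by simp [sub_mul, sum_sub_distrib, Pi.single_apply]
    have := hb (Pi.single i 1 - Pi.single j 1) (by simpa using a fun _ => 1)
    have e : ∀ a b c : ℝ, a * (b * c) = b * (c * a) := fun a b c => by ring
    rw [quad, nn, a] at this
    simp only [e (dg E _ : ℝ), e (ad E _ _ : ℝ), ← mul_sum, a] at this
    simp only [Pi.sub_apply, Pi.single_apply, hij, hij.symm, if_true, if_false,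
      show ∀ k, ad E k k = 0 from fun k => if_neg (hE k), Nat.cast_zero] at this
    simp only [q]
    push_cast
    constructor <;> linarith [this.1, this.2]
  obtain ⟨p, hp, hmin⟩ := exists_min_image (univ : Finset (Fin n)).offDiag q
    ⟨(⟨0, by omega⟩, ⟨1, by omega⟩), by simp⟩
  simp only [mem_offDiag, mem_univ, true_and] at hp hmin
  let h : Fin n → Fin n → Bool := fun i j => decide (i ≠ j ∧ q (i, j) = q p + 1)
  have key : ∀ i j, (dg E i + dg E j + ad E i j + ad E j i : ℤ) = q p +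
      (if h i j then 1 else 0) + if i = j then (2 * dg E i - q p : ℤ) else 0 := by
    intro i j
    by_cases e : i = j
    · simp [h, e, ad, hE]; ring
    · have a := hmin (i, j) e
      have b : (q (i, j) : ℝ) < q p + 2 := by linarith [(hq i j e).2, (hq p.1 p.2 hp).1]
      have c : q (i, j) < q p + 2 := by exact_mod_cast b
      have d : (dg E i + dg E j + ad E i j + ad E j i : ℤ) = q (i, j) := by simp [q]
      simp only [h, e, d, ne_eq, not_false_eq_true, true_and, decide_eq_true_eq, if_false]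
      split_ifs <;> omega
  have idn : ∀ x : Fin n → ℝ, ∑ i, x i = 0 →
      2 * (x ⬝ᵥ (lap E ℝ *ᵥ x)) = (q p : ℤ) * nn x - ff h x := by
    intro x hx
    have k2 : ∀ i j, (dg E i + dg E j + ad E i j + ad E j i : ℝ) * (x i * x j) =
        q p * (x i * x j) + (if h i j then x i * x j else 0) +
          if i = j then (2 * dg E i - q p : ℝ) * (x i * x j) else 0 := fun i j => by
      have := congrArg (Int.cast : ℤ → ℝ) (key i j)
      push_cast at this
      rw [this]; split_ifs <;> ring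
    have k3 := sum_congr rfl fun i (_ : i ∈ univ) => sum_congr rfl fun j (_ : j ∈ univ) => k2 i j
    simp only [add_mul, sum_add_distrib, sum_ite_eq, mem_univ, if_true, sub_mul,
      sum_sub_distrib] at k3
    rw [sum_comm (f := fun i j => (dg E j : ℝ) * (x i * x j)),
      sum_comm (f := fun i j => (ad E j i : ℝ) * (x i * x j))] at k3
    have z1 : ∑ i, ∑ j, (dg E i : ℝ) * (x i * x j) = 0 := by simp [← mul_sum, hx]
    have z2 : ∑ i, ∑ j, (dg E i : ℝ) * (x j * x i) = 0 := by simp [← mul_sum, ← sum_mul, hx]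
    have z3 : ∑ i, ∑ j, (q p : ℝ) * (x i * x j) = 0 := by simp [← mul_sum, hx]
    have z4 : ∑ i, ∑ j, (ad E i j : ℝ) * (x j * x i) = ∑ i, ∑ j, (ad E i j : ℝ) * (x i * x j) := by
      exact sum_congr rfl fun i _ => sum_congr rfl fun j _ => by ring
    rw [z1, z2, z3, z4] at k3
    simp only [mul_assoc, ← mul_sum] at k3
    rw [quad, nn, ff]
    push_cast
    linarith
  refine ⟨q p, h, ⟨fun i j => ?_, fun i => by simp [h], fun x y hx hy a b => ?_⟩, ?_, idn⟩
  · simp only [h, q, decide_eq_decide]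
    exact and_congr ne_comm (by omega)
  · have := idn x hx
    have := idn y hy
    have := mul_le_mul_of_nonneg_right (hb x hx).1 b.le
    have := mul_le_mul_of_nonneg_right (hb y hy).2 a.le
    have := mul_lt_mul_of_pos_right h1 (mul_pos a b)
    have e1 : ff h x = (q p : ℤ) * nn x - 2 * (x ⬝ᵥ (lap E ℝ *ᵥ x)) := by linarith
    have e2 : ff h y = (q p : ℤ) * nn y - 2 * (y ⬝ᵥ (lap E ℝ *ᵥ y)) := by linarith
    rw [e1, e2]
    linarith
  · have k3 := sum_congr rfl fun i (_ : i ∈ univ) => sum_congr rfl fun j (_ : j ∈ univ) => key i j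
    simp only [sum_add_distrib, sum_ite_eq, mem_univ, if_true, sum_sub_distrib, sum_const,
      card_univ, Fintype.card_fin, nsmul_eq_mul, ← mul_sum] at k3
    rw [sum_comm (f := fun i j => (ad E j i : ℤ))] at k3
    have z : ∑ i, ∑ j, (ad E i j : ℤ) = ∑ i, (dg E i : ℤ) := by simp [ad, dg]
    rw [z] at k3
    rw [← Int.natCast_dvd_natCast, mm_sum]
    push_cast
    exact ⟨2 * ∑ i, (dg E i : ℤ) - n * q p + q p, by linarith⟩

theorem eig_int {m : ℕ} (E : Fin (m + 1) → Fin (m + 1) → Prop) {Q : Matrix (Fin (m + 1)) (Fin m) ℂ}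
    (hQ : Qᴴ * Q = 1) (hQe : ∀ j, ∑ i, Q i j = 0) {z : ℂ}
    (hz : z ∈ spectrum ℂ (Qᴴ * lap E ℂ * Q)) : IsIntegral ℤ z := by
  by_cases z0 : z = 0
  · rw [z0]; exact isIntegral_zero
  let e : Matrix (Fin (m + 1)) Unit ℂ := of fun _ _ => 1
  let e' : Matrix Unit (Fin (m + 1)) ℂ := of fun _ _ => ((m + 1 : ℕ) : ℂ)⁻¹
  have a1 : Qᴴ * e = 0 := by
    ext i j
    simpa [Matrix.mul_apply, e] using congrArg (starRingEnd ℂ) (hQe i)
  have a2 : e' * Q = 0 := by ext i j; simp [Matrix.mul_apply, e', ← mul_sum, hQe]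
  have a3 : e' * e = 1 := by
    ext i j
    simp only [Matrix.mul_apply, e', e, of_apply, mul_one, sum_const, card_univ, Fintype.card_fin,
      nsmul_eq_mul, Subsingleton.elim i j, one_apply_eq]
    exact mul_inv_cancel₀ (Nat.cast_ne_zero.2 (Nat.succ_ne_zero m))
  have h1 : fromRows Qᴴ e' * fromCols Q e = 1 := by
    rw [fromRows_mul_fromCols, hQ, a1, a2, a3, fromBlocks_one]
  have h2 := (mul_eq_one_comm_of_equiv (Fintype.equivOfCardEq (by simp))).1 h1
  rw [fromCols_mul_fromRows] at h2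
  have h3 : lap E ℂ * e = 0 := by
    ext i j
    simp [lap, Matrix.sub_mul, Matrix.mul_apply, e, diagonal_apply]
  obtain ⟨y, y0, hy⟩ : ∃ y ≠ 0, (Qᴴ * lap E ℂ * Q) *ᵥ y = z • y := by
    rw [spectrum.mem_iff, isUnit_iff_isUnit_det, isUnit_iff_ne_zero, not_not,
      ← exists_mulVec_eq_zero_iff] at hz
    obtain ⟨y, y0, hy⟩ := hz
    refine ⟨y, y0, ?_⟩
    rw [sub_mulVec, sub_eq_zero, Algebra.algebraMap_eq_smul_one, smul_mulVec, one_mulVec] at hy
    exact hy.symm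
  have h4 : lap E ℂ *ᵥ (lap E ℂ *ᵥ (Q *ᵥ y)) = z • lap E ℂ *ᵥ (Q *ᵥ y) := by
    conv_lhs => rw [← one_mulVec (lap E ℂ *ᵥ (Q *ᵥ y)), ← h2]
    rw [← mulVec_smul, ← mulVec_smul, ← hy]
    simp only [mulVec_mulVec, Matrix.mul_add, Matrix.add_mul, ← Matrix.mul_assoc, h3,
      Matrix.zero_mul, add_zero]
  have h5 : lap E ℂ *ᵥ (Q *ᵥ y) ≠ 0 := fun h => by
    rw [← mulVec_mulVec, ← mulVec_mulVec, h, mulVec_zero, eq_comm, smul_eq_zero] at hy
    tauto
  have h6 : lap E ℂ = (lap E ℤ).map (Int.castRingHom ℂ) := by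
    ext i j
    simp only [lap, Matrix.sub_apply, diagonal_apply, of_apply, map_apply]
    split_ifs <;> simp
  refine ⟨(lap E ℤ).charpoly, charpoly_monic _, ?_⟩
  rw [← Polynomial.eval_map, algebraMap_int_eq, ← charpoly_map, ← h6, eval_charpoly,
    ← exists_mulVec_eq_zero_iff]
  refine ⟨_, h5, ?_⟩
  rw [sub_mulVec, h4, scalar_apply, diagonal_const_mulVec, sub_self]

theorem main {m : ℕ} (hm : 1 ≤ m) (E : Fin (m + 1) → Fin (m + 1) → Prop) (hE : ∀ i, ¬ E i i)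
    {Q : Matrix (Fin (m + 1)) (Fin m) ℂ} (hQ : Qᴴ * Q = 1) (hQe : ∀ j, ∑ i, Q i j = 0)
    (hp : {z | ∃ x : Fin (m + 1) → ℂ, ∑ i, x i = 0 ∧ ∑ i, ‖x i‖ ^ 2 = 1 ∧
      z = star x ⬝ᵥ (lap E ℂ *ᵥ x)} = convexHull ℝ (spectrum ℂ (Qᴴ * lap E ℂ * Q))) {α β : ℝ}
    (hα : IsLeast {r | ∃ x : Fin (m + 1) → ℝ, ∑ i, x i = 0 ∧ ∑ i, x i ^ 2 = 1 ∧
      r = x ⬝ᵥ (lap E ℝ *ᵥ x)} α)
    (hβ : IsGreatest {r | ∃ x : Fin (m + 1) → ℝ, ∑ i, x i = 0 ∧ ∑ i, x i ^ 2 = 1 ∧
      r = x ⬝ᵥ (lap E ℝ *ᵥ x)} β) (h0 : 0 < β - α) (h1 : β - α < 1) : False := by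
  have hb : ∀ x : Fin (m + 1) → ℝ, ∑ i, x i = 0 → α * nn x ≤ x ⬝ᵥ (lap E ℝ *ᵥ x) ∧
      x ⬝ᵥ (lap E ℝ *ᵥ x) ≤ β * nn x := fun x hx => by
    by_cases h : 0 < nn x
    · obtain ⟨y, a, b, c⟩ := scale E hx h
      rw [← c]
      exact ⟨mul_le_mul_of_nonneg_right (hα.2 ⟨y, a, b, rfl⟩) h.le,
        mul_le_mul_of_nonneg_right (hβ.2 ⟨y, a, b, rfl⟩) h.le⟩
    · simp [nn_zero h, nn]
  obtain ⟨t, h, H, hd, idn⟩ := struc E (by omega) hE h1 hb
  obtain ⟨⟨x, x1, x2, x3⟩, -⟩ := hα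
  obtain ⟨⟨y, y1, y2, y3⟩, -⟩ := hβ
  have x4 : nn x = 1 := by simpa [nn, sq] using x2
  have y4 : nn y = 1 := by simpa [nn, sq] using y2
  have x5 := idn x x1
  have y5 := idn y y1
  rw [← x3, x4] at x5
  rw [← y3, y4] at y5
  have z : ∀ g : Fin (m + 1) → Fin (m + 1) → Bool, (∀ i j, g i j = false) → ∀ x, ff g x = 0 :=
    fun g hg x => by simp [ff, hg]
  rcases H.cls (by omega) hd with (c | c) | ⟨c1, w, w1, w2, w3⟩
  · rw [z h c] at x5 y5; linarith
  · have a := H.ff_co x1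
    have b := H.ff_co y1
    rw [z _ c] at a b
    linarith
  have hβ : 2 * β = t + rho := by
    have a := c1 y y1
    have b := (hb w w1).2
    have c := idn w w1
    have : (t + rho) * nn w ≤ 2 * β * nn w := by linarith
    have := le_of_mul_le_mul_right this w2
    rw [y4] at a
    linarith
  have : ∃ l ∈ spectrum ℂ (Qᴴ * lap E ℂ * Q), β ≤ l.re := by
    by_contra! hc
    have := convexHull_min (𝕜 := ℝ) (t := {c : ℂ | c.re < β}) hc (convex_halfSpace_re_lt β)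
    rw [← hp] at this
    have := this ⟨fun i => (y i : ℂ), by
      rw [← Complex.ofReal_sum, y1]; rfl, by simpa using y2, rfl⟩
    simp only [Set.mem_ofPred_eq, ofReal_quad] at this
    linarith
  obtain ⟨l, hl, h2⟩ := this
  have h3 := subset_convexHull ℝ _ hl
  rw [← hp] at h3
  obtain ⟨v, v1, v2, v3⟩ := h3
  have h4 : l.re ≤ β := by
    rw [v3, re_quad]
    have a := (hb (fun i => (v i).re) (by simpa using congrArg Complex.re v1)).2
    have b := (hb (fun i => (v i).im) (by simpa using congrArg Complex.im v1)).2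
    have c : nn (fun i => (v i).re) + nn (fun i => (v i).im) = 1 := by
      rw [← v2, nn, nn, ← sum_add_distrib]
      exact sum_congr rfl fun i _ => by rw [Complex.sq_norm, Complex.normSq_apply]
    have : β * nn (fun i => (v i).re) + β * nn (fun i => (v i).im) = β := by
      rw [← mul_add, c, mul_one]
    linarith
  have h5 := eig_int E hQ hQe hl
  have h6 := h5.add (h5.map (starRingEnd ℂ).toIntAlgHom)
  apply not_int t
  rw [← hβ, le_antisymm h2 h4, ← Complex.add_conj l]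
  exact h6

end Pool.Agent.H.MP_e61cf5_co
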